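import Mathlib
import Pool.Agent.V11252.OA.Base

/-!
There are Riesz spaces `E`, `F` and orthogonally additive maps `S, T : E → F` whose join exists in
`O(E, F)`, and a point `x` such that `{S u + T v : x = u ⊔ v}` has no supremum in `F`.
-/

open Pool.Agent.V11252.OA

namespace Pool.Agent.Results.MP_f32e1d_an.NoPointwiseSup

/-- `E` is a Riesz space: a real vector lattice. -/
def IsRiesz (E : Type) [AddCommGroup E] [Lattice E] [Module ℝ E] : Prop :=
  (∀ x y z : E, x ≤ y → x + z ≤ y + z) ∧ ∀ (a : ℝ) (x : E), 0 ≤ a → 0 ≤ x → 0 ≤ a • x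

/-- The Archimedean property of a Riesz space. -/
def IsArch (E : Type) [AddCommGroup E] [Lattice E] : Prop :=
  ∀ x y : E, (∀ n : ℕ, n • x ≤ y) → x ≤ 0

/-- The set of orthogonally additive maps from `E` to `F`. -/
def OrthAdd (E F : Type) [AddCommGroup E] [Lattice E] [AddCommGroup F] : Set (E → F) :=
  {T | ∀ x y : E, |x| ⊓ |y| = 0 → T (x + y) = T x + T y}

/-- `J` is the join of `S` and `T` in the set of all orthogonally additive maps, ordered
pointwise. -/
def IsJoin {E F : Type} [AddCommGroup E] [Lattice E] [AddCommGroup F] [Lattice F]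
    (S T J : E → F) : Prop :=
  J ∈ OrthAdd E F ∧ S ≤ J ∧ T ≤ J ∧ ∀ U ∈ OrthAdd E F, S ≤ U → T ≤ U → J ≤ U

/-- The set of all `S u + T v`, where `x = u + v` and `u ⊥ v`. -/
def splitSums {E F : Type} [AddCommGroup E] [Lattice E] [AddCommGroup F] (S T : E → F) (x : E) :
    Set F :=
  {w | ∃ u v : E, x = u + v ∧ |u| ⊓ |v| = 0 ∧ w = S u + T v}

lemma split_eq (x : Per) :
    splitSums Pool.Agent.V11252.OA.S (0 : Per → F) x =
      Pool.Agent.V11252.OA.splitSums Pool.Agent.V11252.OA.S (0 : Per → F) x := by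
  ext w
  constructor
  · rintro ⟨u, v, h1, h2, h3⟩; exact ⟨u, v, h1.symm, h2, h3⟩
  · rintro ⟨u, v, h1, h2, h3⟩; exact ⟨u, v, h1.symm, h2, h3⟩

open Classical in
/-- Restriction to the support of `x`. -/
noncomputable def res (x u : Per) : Per :=
  ⟨fun n => if x.1 n = 0 then 0 else u.1 n, map₂_mem (fun a b => if a = 0 then 0 else b) x.2 u.2⟩

lemma res_apply (x u : Per) (n : ℕ) : (res x u).1 n = if x.1 n = 0 then 0 else u.1 n := by
  unfold res; congr

/-- The sets of sums are additive. -/
lemma split_add {x y : Per} (h : |x| ⊓ |y| = 0) (w : F) :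
    w ∈ splitSums Pool.Agent.V11252.OA.S (0 : Per → F) (x + y) ↔
      ∃ w1 ∈ splitSums Pool.Agent.V11252.OA.S (0 : Per → F) x,
      ∃ w2 ∈ splitSums Pool.Agent.V11252.OA.S (0 : Per → F) y, w = w1 + w2 := by
  rw [disj_iff] at h
  constructor
  · rintro ⟨u, v, h1, h2, rfl⟩
    rw [disj_iff] at h2
    have hs : ∀ n, x.1 n + y.1 n = u.1 n + v.1 n := fun n => congrFun (congrArg Subtype.val h1) n
    have hx : x = res x u + res x v := by
      apply Subtype.ext; funext n
      change _ = (res x u).1 n + (res x v).1 n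
      rw [res_apply, res_apply]
      split_ifs with h3
      · rw [h3, add_zero]
      · have := (h n).resolve_left h3
        rw [← hs, this, add_zero]
    have hy : y = (u - res x u) + (v - res x v) := by
      apply Subtype.ext; funext n
      change _ = (u.1 n - (res x u).1 n) + (v.1 n - (res x v).1 n)
      rw [res_apply, res_apply]
      have := hs n
      split_ifs with h3
      · rw [h3] at this; linarith
      · have h4 := (h n).resolve_left h3
        rw [h4]; ring
    refine ⟨Pool.Agent.V11252.OA.S (res x u) + 0, ⟨res x u, res x v, hx, ?_, rfl⟩,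
      Pool.Agent.V11252.OA.S (u - res x u) + 0, ⟨u - res x u, v - res x v, hy, ?_, rfl⟩, ?_⟩
    · rw [disj_iff]; intro n
      rw [res_apply, res_apply]
      split_ifs
      · exact Or.inl rfl
      · exact h2 n
    · rw [disj_iff]; intro n
      change u.1 n - (res x u).1 n = 0 ∨ v.1 n - (res x v).1 n = 0
      rw [res_apply, res_apply]
      split_ifs
      · simpa using h2 n
      · left; ring
    · have h3 : Pool.Agent.V11252.OA.S u = Pool.Agent.V11252.OA.S (res x u) +
          Pool.Agent.V11252.OA.S (u - res x u) := by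
        rw [← S_mem (res x u) (u - res x u) ?_]
        · congr 1; abel
        · rw [disj_iff]; intro n
          change (res x u).1 n = 0 ∨ u.1 n - (res x u).1 n = 0
          rw [res_apply]
          split_ifs
          · exact Or.inl rfl
          · right; ring
      rw [h3]
      change _ + (0 : F) = _
      abel
  · rintro ⟨w1, ⟨u1, v1, h1, h2, rfl⟩, w2, ⟨u2, v2, h3, h4, rfl⟩, rfl⟩
    rw [disj_iff] at h2 h4
    have hx : ∀ n, x.1 n = u1.1 n + v1.1 n := fun n => congrFun (congrArg Subtype.val h1) n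
    have hy : ∀ n, y.1 n = u2.1 n + v2.1 n := fun n => congrFun (congrArg Subtype.val h3) n
    have hz : ∀ n, (u1.1 n = 0 ∧ v1.1 n = 0) ∨ (u2.1 n = 0 ∧ v2.1 n = 0) := by
      intro n
      rcases h n with h5 | h5
      · left
        rw [hx n] at h5
        rcases h2 n with h6 | h6
        · exact ⟨h6, by linarith⟩
        · exact ⟨by linarith, h6⟩
      · right
        rw [hy n] at h5
        rcases h4 n with h6 | h6
        · exact ⟨h6, by linarith⟩
        · exact ⟨by linarith, h6⟩
    refine ⟨u1 + u2, v1 + v2, ?_, ?_, ?_⟩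
    · rw [h1, h3]; abel
    · rw [disj_iff]; intro n
      change u1.1 n + u2.1 n = 0 ∨ v1.1 n + v2.1 n = 0
      rcases hz n with ⟨h5, h6⟩ | ⟨h5, h6⟩
      · rw [h5, h6, zero_add, zero_add]; exact h4 n
      · rw [h5, h6, add_zero, add_zero]; exact h2 n
    · have : Pool.Agent.V11252.OA.S (u1 + u2) = Pool.Agent.V11252.OA.S u1 +
          Pool.Agent.V11252.OA.S u2 := by
        refine S_mem u1 u2 ?_
        rw [disj_iff]; intro n
        rcases hz n with ⟨h5, h6⟩ | ⟨h5, h6⟩
        · exact Or.inl h5
        · exact Or.inr h5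
      rw [this]
      change _ + (0 : F) + (_ + (0 : F)) = _ + (0 : F)
      abel

/-- Some set of sums has no supremum. -/
lemma exists_no_sup : ∃ x : Per, ¬ ∃ s : F,
    IsLUB (splitSums Pool.Agent.V11252.OA.S (0 : Per → F) x) s := by
  by_contra hcon
  push Not at hcon
  choose R hR using hcon
  have hRO : R ∈ Pool.Agent.V11252.OA.OrthAdd Per F := by
    intro x y h
    apply le_antisymm
    · refine (hR (x + y)).2 fun w hw => ?_
      obtain ⟨w1, h1, w2, h2, rfl⟩ := (split_add h w).1 hw
      exact add_le_add ((hR x).1 h1) ((hR y).1 h2)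
    · have h1 : ∀ w1 ∈ splitSums Pool.Agent.V11252.OA.S (0 : Per → F) x, R y ≤ R (x + y) - w1 := by
        intro w1 hw1
        refine (hR y).2 fun w2 hw2 => ?_
        rw [le_sub_iff_add_le, add_comm]
        exact (hR (x + y)).1 ((split_add h _).2 ⟨w1, hw1, w2, hw2, rfl⟩)
      rw [← le_sub_iff_add_le]
      refine (hR x).2 fun w1 hw1 => ?_
      have := h1 w1 hw1
      rw [le_sub_iff_add_le] at this ⊢
      rwa [add_comm]
  have hS : Pool.Agent.V11252.OA.S ≤ R := by
    intro x
    refine (hR x).1 ⟨x, 0, by rw [add_zero], ?_, ?_⟩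
    · rw [disj_iff]; intro n; exact Or.inr rfl
    · change _ = _ + (0 : F); rw [add_zero]
  have h0 : (0 : Per → F) ≤ R := by
    intro x
    refine (hR x).1 ⟨0, x, by rw [zero_add], ?_, ?_⟩
    · rw [disj_iff]; intro n; exact Or.inl rfl
    · have : Pool.Agent.V11252.OA.S 0 = 0 := by
        have h := S_mem 0 0 (by rw [disj_iff]; intro n; exact Or.inl rfl)
        rw [add_zero] at h
        exact left_eq_add.1 h
      rw [this]
      change (0 : F) = 0 + 0
      rw [add_zero]
  have h1 := J_least hRO hS h0 one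
  have h2 : R one ≤ ContinuousMap.const X (1 / 2) := by
    refine (hR one).2 fun w hw => ?_
    rw [split_eq] at hw
    exact half_bound w hw
  exact J_one_not_le (h1.trans h2)

/-- There are Riesz spaces `E`, `F` (with `F` Archimedean), orthogonally additive maps
`S, T : E → F` whose join exists in the space of all orthogonally additive maps, and a point `x`
such that `{S u + T v : x = u ⊔ v}` has no least upper bound in `F`. -/
theorem result : ∃ (E F : Type) (_ : AddCommGroup E) (_ : Lattice E) (_ : Module ℝ E)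
    (_ : AddCommGroup F) (_ : Lattice F) (_ : Module ℝ F),
    IsRiesz E ∧ IsRiesz F ∧ IsArch F ∧
    ∃ S T J : E → F, S ∈ OrthAdd E F ∧ T ∈ OrthAdd E F ∧ IsJoin S T J ∧
      ∃ x : E, ¬ ∃ s : F, IsLUB (splitSums S T x) s := by
  refine ⟨Per, F, inferInstance, inferInstance, inferInstance, inferInstance, inferInstance,
    inferInstance, ⟨?_, ?_⟩, ⟨?_, ?_⟩, ?_, Pool.Agent.V11252.OA.S, 0, J, S_mem, ?_,
    ⟨J_mem, S_le_J, zero_le_J, fun U hU h1 h2 => J_least hU h1 h2⟩, exists_no_sup⟩
  · intro x y z h; exact add_le_add_left h z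
  · intro a x ha hx n
    exact mul_nonneg ha (hx n)
  · intro x y z h; exact add_le_add_left h z
  · intro a x ha hx n
    exact mul_nonneg ha (hx n)
  · intro x y h ν
    change x ν ≤ 0
    by_contra hcon
    push Not at hcon
    obtain ⟨n, hn⟩ := exists_nat_gt (y ν / x ν)
    have h1 : (n • x) ν ≤ y ν := h n ν
    rw [ContinuousMap.nsmul_apply, nsmul_eq_mul] at h1
    rw [div_lt_iff₀ hcon] at hn
    linarith
  · intro x y _
    change (0 : F) = 0 + 0
    rw [add_zero]

end Pool.Agent.Results.MP_f32e1d_an.NoPointwiseSup
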